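import Pool.Agent.PCL.Stmts

/-!
# Squad PCL, row DTM (helper86): the determinant of the pencil
-/

set_option autoImplicit false

namespace Pool.Agent.PCL.H86

open Pool.Agent.PCL Matrix

/-- **Row DTM.** -/
theorem dtm : DtmStmt := by
  intro ι _ _ g m w e X Y θ B hg hcard he hw hP hB
  classical
  have hc : Fintype.card (Fin m ⊕ Fin m) = Fintype.card ι := by
    rw [Fintype.card_sum, Fintype.card_fin, hcard]
    ring
  obtain ⟨σ⟩ : Nonempty ((Fin m ⊕ Fin m) ≃ ι) := ⟨Fintype.equivOfCardEq hc⟩
  set M : Matrix (Fin m ⊕ Fin m) (Fin m ⊕ Fin m) ℤ :=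
    Matrix.of fun r c => (Sum.elim X Y c) (σ r) with hM
  refine ⟨M.det, ?_, ?_, ?_⟩
  · intro h0
    obtain ⟨v, hv0, hv⟩ := Matrix.exists_mulVec_eq_zero_iff.2 h0
    have h1 : (∑ j, v (Sum.inl j) • X j) + (∑ j, v (Sum.inr j) • Y j) = 0 := by
      funext i
      have h2 := congrFun hv (σ.symm i)
      simp only [Matrix.mulVec, dotProduct, hM, Matrix.of_apply, Fintype.sum_sum_type,
        Sum.elim_inl, Sum.elim_inr, Equiv.apply_symm_apply, Pi.zero_apply] at h2
      simp only [Pi.add_apply, Finset.sum_apply, Pi.smul_apply, smul_eq_mul, Pi.zero_apply]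
      rw [← h2]
      congr 1
      · exact Finset.sum_congr rfl fun j _ => mul_comm _ _
      · exact Finset.sum_congr rfl fun j _ => mul_comm _ _
    have hsum : ∀ (u : Fin m → ℤ) (Z : Fin m → ι → ℤ) (z : ℂ), (∀ j, pt g (Z j) = θ j * z) →
        pt g (∑ j, u j • Z j) = ((∑ j, (u j : ℝ) * θ j : ℝ) : ℂ) * z := by
      intro u Z z hZ
      have h3 : ∀ s : Finset (Fin m), pt g (∑ j ∈ s, u j • Z j) =
          ((∑ j ∈ s, (u j : ℝ) * θ j : ℝ) : ℂ) * z := by
        intro s
        induction s using Finset.induction_on with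
        | empty => simp
        | insert j s hj ih =>
          rw [Finset.sum_insert hj, Finset.sum_insert hj, pt_add, pt_smul, ih, hZ]
          push_cast
          ring
      exact h3 Finset.univ
    have h4 := congrArg (pt g) h1
    rw [pt_add, hsum _ X (pt g w) hP.hX, hsum _ Y (pt g e) hP.hY, pt_zero] at h4
    set s : ℝ := ∑ j, (v (Sum.inl j) : ℝ) * θ j with hs
    set t : ℝ := ∑ j, (v (Sum.inr j) : ℝ) * θ j with ht
    have hs0 : s = 0 := by
      by_contra hne
      have hne' : (s : ℂ) ≠ 0 := by exact_mod_cast hne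
      apply hw (-t / s)
      push_cast
      field_simp
      linear_combination h4
    have ht0 : t = 0 := by
      rw [hs0, Complex.ofReal_zero, zero_mul, zero_add] at h4
      rcases mul_eq_zero.1 h4 with h5 | h5
      · exact_mod_cast h5
      · exact absurd h5 he
    have hind : ∀ u : Fin m → ℤ, (∑ j, (u j : ℝ) * θ j) = 0 → ∀ j, u j = 0 := by
      intro u hu j
      have h5 := Fintype.linearIndependent_iff.1 hP.ind (fun j => (u j : ℚ)) (by
        rw [← hu]
        refine Finset.sum_congr rfl fun j _ => ?_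
        rw [Algebra.smul_def]
        simp) j
      exact_mod_cast h5
    apply hv0
    funext c
    rcases c with j | j
    · exact hind (fun j => v (Sum.inl j)) hs0 j
    · exact hind (fun j => v (Sum.inr j)) ht0 j
  · have h1 := Matrix.det_le (A := M) (abv := AbsoluteValue.abs) (x := (B : ℤ)) (by
      intro r c
      rw [AbsoluteValue.abs_apply]
      rcases c with j | j
      · exact (hB j (σ r)).1
      · exact (hB j (σ r)).2)
    rw [AbsoluteValue.abs_apply, hc, hcard, nsmul_eq_mul] at h1
    push_cast at h1 ⊢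
    exact h1
  · intro a b G hG
    set N : Matrix (Fin m ⊕ Fin m) (Fin m ⊕ Fin m) ℤ :=
      Matrix.of fun r c => (Sum.elim b Y c) (σ r) with hN
    have h1 : M * Matrix.fromBlocks 1 0 (a • (1 : Matrix (Fin m) (Fin m) ℤ)) 1 =
        N * Matrix.fromBlocks G 0 0 1 := by
      ext r c
      rw [Matrix.mul_apply, Matrix.mul_apply, Fintype.sum_sum_type, Fintype.sum_sum_type]
      rcases c with j | j
      · simp only [hM, hN, Matrix.of_apply, Sum.elim_inl, Sum.elim_inr, Matrix.fromBlocks_apply₁₁,
          Matrix.fromBlocks_apply₂₁, Matrix.zero_apply, mul_zero, Finset.sum_const_zero, add_zero,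
          Matrix.smul_apply, Matrix.one_apply, smul_eq_mul, mul_ite, mul_one,
          Finset.sum_ite_eq', Finset.mem_univ, if_true]
        have h2 := congrFun (hG j) (σ r)
        simp only [Pi.add_apply, Pi.smul_apply, smul_eq_mul, Finset.sum_apply] at h2
        rw [mul_comm (Y j (σ r)) a, h2]
        exact Finset.sum_congr rfl fun k _ => mul_comm _ _
      · simp only [hM, hN, Matrix.of_apply, Sum.elim_inl, Sum.elim_inr, Matrix.fromBlocks_apply₁₂,
          Matrix.fromBlocks_apply₂₂, Matrix.zero_apply, mul_zero, Finset.sum_const_zero]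
    have h2 := congrArg Matrix.det h1
    rw [Matrix.det_mul, Matrix.det_mul, Matrix.det_fromBlocks_zero₁₂, Matrix.det_fromBlocks_zero₁₂,
      Matrix.det_one, mul_one, mul_one, mul_one] at h2
    rw [h2]
    exact Dvd.intro_left _ rfl

end Pool.Agent.PCL.H86
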